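import Pool.Agent.MWS.StmtsW

/-!
# Row DBX: all letters can be doubled
-/

namespace Pool.Agent.MWS.H51

open Pool.Agent.Helper14_MV Pool.Agent.Helper2_MV Pool.Agent.MVO Pool.Agent.MWL
open Pool.Agent.MWS

theorem count_dbl (l : List ℕ) (c : ℕ) :
    (l.flatMap (fun c => [c, c])).count c = 2 * l.count c := by
  induction l with
  | nil => rfl
  | cons a l ih =>
    rw [List.flatMap_cons, List.count_append, ih]
    by_cases h : a = c
    · subst h
      rw [List.count_cons_self, List.count_cons_self, List.count_cons_self, List.count_nil]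
      omega
    · rw [List.count_cons_of_ne h, List.count_cons_of_ne h, List.count_cons_of_ne h,
        List.count_nil]
      omega

theorem mem_dbl (l : List ℕ) (c : ℕ) : c ∈ l.flatMap (fun c => [c, c]) ↔ c ∈ l := by
  simp [List.mem_flatMap]

theorem bef_nil (x y : ℕ) : Bef [] x y := by
  intro P Q h
  have := congrArg List.length h
  simp at this

theorem bef_cons (c : ℕ) (l : List ℕ) (x y : ℕ) :
    Bef (c :: l) x y ↔ (c = y → x ∉ l) ∧ Bef l x y := by
  constructor
  · intro h
    refine ⟨fun hc => ?_, fun P Q hl => ?_⟩
    · subst hc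
      exact h [] l rfl
    · exact h (c :: P) Q (by rw [hl]; rfl)
  · rintro ⟨h1, h2⟩ P Q hl
    cases P with
    | nil =>
      rw [List.nil_append, List.cons.injEq] at hl
      rw [← hl.2]
      exact h1 hl.1
    | cons p P =>
      rw [List.cons_append, List.cons.injEq] at hl
      exact h2 P Q hl.2

theorem bef_dbl (l : List ℕ) {x y : ℕ} (hxy : x ≠ y) :
    Bef (l.flatMap (fun c => [c, c])) x y ↔ Bef l x y := by
  induction l with
  | nil => exact Iff.rfl
  | cons c l ih =>
    have e : (c :: l).flatMap (fun c => [c, c]) = c :: c :: l.flatMap (fun c => [c, c]) := rfl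
    rw [e, bef_cons, bef_cons, bef_cons, ih]
    constructor
    · rintro ⟨_, h2, h3⟩
      exact ⟨fun hc hx => h2 hc ((mem_dbl l x).2 hx), h3⟩
    · rintro ⟨h2, h3⟩
      refine ⟨fun hc hx => ?_, fun hc hx => h2 hc ((mem_dbl l x).1 hx), h3⟩
      rcases List.mem_cons.1 hx with h | h
      · exact hxy (h.trans hc)
      · exact h2 hc ((mem_dbl l x).1 h)

/-- one block in a fixed context -/
theorem dbl_block (h2 : IdxStmt) {β : FIC} (hβ : ClX β) (q : List ℕ) :
    ∀ (l p : List ℕ), (∀ c ∈ l, 2 ≤ (p ++ (l ++ q)).count c) →
      RR β (p ++ (l ++ q)) (p ++ (l.flatMap (fun c => [c, c]) ++ q)) := by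
  intro l
  induction l with
  | nil => intro p _; exact RR.refl _
  | cons c l ih =>
    intro p hc
    have e : (c :: l).flatMap (fun c => [c, c]) = c :: c :: l.flatMap (fun c => [c, c]) := rfl
    rw [e]
    have hcc := hc c (List.mem_cons_self)
    have hm : c ∈ p ∨ c ∈ l ++ q := by
      by_contra hcon
      rw [not_or] at hcon
      have e1 : (p ++ ((c :: l) ++ q)).count c = p.count c + ((l ++ q).count c + 1) := by
        rw [List.count_append, List.cons_append, List.count_cons_self]
      rw [e1, List.count_eq_zero_of_not_mem hcon.1, List.count_eq_zero_of_not_mem hcon.2] at hcc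
      omega
    have s1 : RR β (p ++ c :: (l ++ q)) (p ++ (List.replicate 2 c ++ (l ++ q))) :=
      h2 β hβ p (l ++ q) c hm 2 (by omega)
    have s2 := ih (p ++ [c, c]) (fun d hd => by
      have h3 := hc d (List.mem_cons_of_mem _ hd)
      have e2 : (p ++ [c, c] ++ (l ++ q)).count d =
          (p ++ ((c :: l) ++ q)).count d + [c].count d := by
        simp only [List.count_append, List.cons_append, List.count_cons, List.count_nil]
        omega
      rw [e2]
      omega)
    have e3 : p ++ (List.replicate 2 c ++ (l ++ q)) = p ++ [c, c] ++ (l ++ q) := by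
      simp [List.replicate]
    have e4 : p ++ [c, c] ++ (l.flatMap (fun c => [c, c]) ++ q) =
        p ++ (c :: c :: l.flatMap (fun c => [c, c]) ++ q) := by
      simp
    rw [e3] at s1
    rw [e4] at s2
    exact β.trans s1 s2

/-- **DBX** -/
theorem dbx (h1 : BlrStmt) (h2 : IdxStmt) : DbxStmt := by
  intro β hβ k B hB
  refine ⟨?_, ⟨?_, ?_⟩, ?_, ?_⟩
  · apply h1 β k B (fun j => (B j).flatMap (fun c => [c, c]))
    intro m hm
    set C : ℕ → List ℕ := fun j => if j < m then (B j).flatMap (fun c => [c, c]) else B j
      with hC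
    have hCm : C m = B m := by simp [hC]
    have e1 : asm k C = pre C m ++ (B m ++ suf C m (k - m)) := by
      rw [asm_split hm, hCm, List.append_assoc]
    have e2 : asm k (fun j => if j < m + 1 then (B j).flatMap (fun c => [c, c]) else B j) =
        pre C m ++ ((B m).flatMap (fun c => [c, c]) ++ suf C m (k - m)) := by
      rw [asm_split hm]
      have e3 : pre (fun j => if j < m + 1 then (B j).flatMap (fun c => [c, c]) else B j) m =
          pre C m := pre_congr (fun j hj => by
        simp only [hC]
        rw [if_pos (by omega), if_pos hj])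
      have e4 : suf (fun j => if j < m + 1 then (B j).flatMap (fun c => [c, c]) else B j) m
          (k - m) = suf C m (k - m) := suf_congr (fun j hj _ => by
        simp only [hC]
        rw [if_neg (by omega), if_neg (by omega)])
      rw [e3, e4, if_pos (Nat.lt_succ_self m), List.append_assoc]
    rw [e2, e1]
    apply dbl_block h2 hβ
    intro c hc
    rw [← e1, count_asm (hB.ok m hm c hc)]
    have h3 := hB.ml m hm c hc
    refine le_trans h3 ?_
    unfold deg
    apply Finset.sum_le_sum
    intro j _
    simp only [hC]
    by_cases hj : j < m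
    · rw [if_pos hj, count_dbl]
      omega
    · rw [if_neg hj]
  · intro j hj c hc
    exact hB.ok j hj c ((mem_dbl _ _).1 hc)
  · intro j hj c hc
    have h3 := hB.ml j hj c ((mem_dbl _ _).1 hc)
    refine le_trans h3 ?_
    unfold deg
    apply Finset.sum_le_sum
    intro i _
    simp only [count_dbl]
    omega
  · intro j c
    exact count_dbl _ _
  · intro j x y hxy
    exact bef_dbl _ hxy

end Pool.Agent.MWS.H51
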